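import Pool.Agent.W2helper52.CF.Main

/-!
# Class forcings that preserve Separation satisfy the forcing theorem

Let `(M, C)` be a countable transitive model of `GBC`, and let `P` be a notion of class forcing for
`(M, C)` that preserves Separation. Then `P` satisfies the forcing theorem.

The proof has two parts.

* `P` is pretame. Suppose that `p₀`, a set `I` and a class `D` form a counterexample. With a
  recursion along an enumeration of `M` by the ordinals that is a class, we get a class `A` of
  triples `(i, d, y)` such that `(i, d) ∈ D`, such that for each `i` the conditions `d` of different
  triples with first component `i` are incompatible, and such that for all sets `y` and all
  `q ≤ p₀` there is a triple `(i, d, y)` in `A` with `d ≤ q`. For a generic filter `G` with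
  `p₀ ∈ G`, the triples with `d ∈ G` give a map from a subset of the set `I` onto the set of all
  names in `M`, hence, by a class name, a map from a subset of `I` onto `M[G]`. By Separation the
  diagonal set `{i ∈ I | i ∉ H(i)}` is in `M[G]`, and this is a contradiction.
* If `P` is pretame, the conditions that have a certificate for `σ = τ` or for `σ ≠ τ` are dense.
  A certificate is a set of judgments such that each of them is justified by the others. This
  gives the forcing theorem for equality, and the forcing theorem for all formulas follows.
-/

set_option autoImplicit false

namespace Pool.Agent.Results.MP_878529_lc.SeparationImpliesForcingTheorem

open Pool.Agent.W868 Pool.Agent.W868.GM Pool.Agent.R597 Pool.Agent.W2helper52.CF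
open ZFSet (pair)

/-- Let `(M, C)` be a countable transitive model of `GBC` (`M` is the set of the sets and `C` is
the set of the classes of the model), and let `P` with the order `Le` be a notion of class forcing
for `(M, C)` that preserves Separation: for all generic filters `G` the first order instances of
separation with class names as parameters hold in `Mext M P G`. Then the forcing theorem holds:
for all first order formulas with class names as parameters the forcing relation is a class in `C`,
and what is true in an extension is forced by a condition in the generic filter. -/
theorem result : ∀ M C P Le : ZFSet.{0}, {X | X ∈ C}.Countable → IsGBC M C →
    IsClassForcing C P Le → PreservesSeparation M C P Le → ForcingThm M C P Le :=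
  fun _ _ _ _ hc hM hP hS => (main_theorem hM hc hP hS).2

end Pool.Agent.Results.MP_878529_lc.SeparationImpliesForcingTheorem
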